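import Mathlib
import Pool.Agent.H373R2.T7.LamZ2
import Pool.Agent.H373R2.T7.Crt
import Pool.Agent.E8helper16.TP.StmA

/-! TP-8 (MIN): minor arcs for the sieve model of prime pairs. -/

set_option autoImplicit false

namespace Pool.Agent.E8helper39.TP
open Finset
open Pool.Agent.H807R2.Dav
open Pool.Agent.H373R2.T7
open Pool.Agent.E8helper16.TP (gg S_MIN)

/-- the classes of a prime -/
def AA (h p a : ℕ) : Prop := p ∣ a ∨ p ∣ a + h

instance (h p a : ℕ) : Decidable (AA h p a) := by unfold AA; infer_instance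

lemma AA_mod (h p n : ℕ) : AA h p (n % p) ↔ AA h p n := by
  unfold AA
  rw [Nat.dvd_mod_iff (dvd_refl p)]
  have : p ∣ n % p + h ↔ p ∣ n + h := by
    have h1 : n % p + h ≡ n + h [MOD p] := Nat.ModEq.add_right h (Nat.mod_modEq n p)
    exact h1.dvd_iff (dvd_refl p)
  rw [this]

lemma card_AA (h p : ℕ) (hp : p.Prime) : ((range p).filter (fun a => AA h p a)).card ≤ 2 := by
  have h1 : (range p).filter (fun a => AA h p a) ⊆ {0, (p - h % p) % p} := by
    intro a ha
    rw [mem_filter, mem_range] at ha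
    rw [mem_insert, mem_singleton]
    obtain ⟨h2, h3⟩ := ha
    rcases h3 with h3 | h3
    · left
      exact Nat.eq_zero_of_dvd_of_lt h3 h2
    · right
      have hm : h % p < p := Nat.mod_lt _ hp.pos
      have h4 : p ∣ a + h % p := by
        have h5 : a + h % p ≡ a + h [MOD p] := Nat.ModEq.add_left a (Nat.mod_modEq h p)
        exact (h5.dvd_iff (dvd_refl p)).2 h3
      obtain ⟨k, hk⟩ := h4
      have hk2 : k < 2 := by
        by_contra hcon
        push Not at hcon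
        have : p * 2 ≤ p * k := Nat.mul_le_mul_left _ hcon
        omega
      interval_cases k
      · have e1 : a = 0 := by omega
        have e2 : h % p = 0 := by omega
        rw [e1, e2]
        simp
      · have e1 : a = p - h % p := by omega
        rw [← e1, Nat.mod_eq_of_lt h2]
  exact (card_le_card h1).trans card_le_two

/-- the classes of a set of primes -/
def CC (h : ℕ) (S : Finset ℕ) : Finset ℕ := (range (∏ p ∈ S, p)).filter (fun n => ∀ p ∈ S, AA h p (n % p))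

lemma card_CC (h : ℕ) (S : Finset ℕ) (hS : ∀ p ∈ S, p.Prime) : (CC h S).card ≤ 2 ^ S.card := by
  unfold CC
  rw [crt_card (AA h) S hS]
  calc ∏ p ∈ S, ((range p).filter (fun a => AA h p a)).card ≤ ∏ _p ∈ S, 2 :=
        prod_le_prod' fun p hp => card_AA h p (hS p hp)
    _ = 2 ^ S.card := by rw [prod_const]

lemma mem_CC (h : ℕ) (S : Finset ℕ) (hS : ∀ p ∈ S, p.Prime) (n : ℕ) :
    (∀ p ∈ S, AA h p n) ↔ n % (∏ p ∈ S, p) ∈ CC h S := by
  have hpos : 0 < ∏ p ∈ S, p := Nat.pos_of_ne_zero (prod_ne_zero_iff.2 fun p hp => (hS p hp).ne_zero)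
  unfold CC
  rw [mem_filter, mem_range]
  constructor
  · intro h1
    refine ⟨Nat.mod_lt _ hpos, fun p hp => ?_⟩
    rw [Nat.mod_mod_of_dvd _ (dvd_prod_of_mem _ hp), AA_mod]
    exact h1 p hp
  · rintro ⟨-, h1⟩ p hp
    have := h1 p hp
    rw [Nat.mod_mod_of_dvd _ (dvd_prod_of_mem _ hp), AA_mod] at this
    exact this

/-- the elements of a class -/
lemma class_eq (N d c : ℕ) (hd : 1 ≤ d) (hc : c < d) : ∃ a b : ℕ, a ≤ b ∧ (b : ℝ) - a ≤ N / d + 1 ∧
    (Icc 1 N).filter (fun n => n % d = c) = (Ico a b).image (fun m => c + d * m) := by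
  have hd0 : (0 : ℝ) < d := by exact_mod_cast hd
  rcases Nat.eq_zero_or_pos c with h0 | h0
  · subst h0
    refine ⟨1, N / d + 1, Nat.le_add_left _ _, ?_, ?_⟩
    · push_cast
      have : ((N / d : ℕ) : ℝ) ≤ N / d := Nat.cast_div_le
      linarith
    · ext n
      rw [mem_filter, mem_Icc, mem_image]
      constructor
      · rintro ⟨⟨h1, h2⟩, h3⟩
        obtain ⟨m, rfl⟩ := Nat.dvd_of_mod_eq_zero h3
        refine ⟨m, ?_, by omega⟩
        rw [mem_Ico]
        constructor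
        · rcases Nat.eq_zero_or_pos m with h | h
          · rw [h] at h1; omega
          · exact h
        · have := (Nat.le_div_iff_mul_le (by omega : 0 < d)).2 (by linarith [mul_comm d m] : m * d ≤ N)
          omega
      · rintro ⟨m, hm, rfl⟩
        rw [mem_Ico] at hm
        have h1 : m ≤ N / d := by omega
        have h2 := (Nat.le_div_iff_mul_le (by omega : 0 < d)).1 h1
        refine ⟨⟨?_, by linarith [mul_comm d m]⟩, by simp⟩
        have := Nat.mul_pos (by omega : 0 < d) (by omega : 0 < m)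
        omega
  · by_cases hcN : c ≤ N
    · refine ⟨0, (N - c) / d + 1, Nat.zero_le _, ?_, ?_⟩
      · push_cast
        have h1 : (((N - c) / d : ℕ) : ℝ) ≤ ((N - c : ℕ) : ℝ) / d := Nat.cast_div_le
        have h2 : ((N - c : ℕ) : ℝ) / d ≤ N / d := by
          apply div_le_div_of_nonneg_right _ hd0.le
          exact_mod_cast Nat.sub_le _ _
        linarith
      · ext n
        rw [mem_filter, mem_Icc, mem_image]
        constructor
        · rintro ⟨⟨h1, h2⟩, h3⟩
          have h4 := Nat.mod_add_div n d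
          rw [h3] at h4
          refine ⟨n / d, ?_, h4⟩
          rw [mem_Ico]
          refine ⟨Nat.zero_le _, ?_⟩
          have h5 : n / d * d ≤ N - c := by
            have := mul_comm d (n / d)
            omega
          have := (Nat.le_div_iff_mul_le (by omega : 0 < d)).2 h5
          omega
        · rintro ⟨m, hm, rfl⟩
          rw [mem_Ico] at hm
          have h1 : m ≤ (N - c) / d := by omega
          have h2 := (Nat.le_div_iff_mul_le (by omega : 0 < d)).1 h1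
          have h3 := mul_comm d m
          refine ⟨⟨by omega, by omega⟩, ?_⟩
          rw [Nat.add_mul_mod_self_left, Nat.mod_eq_of_lt hc]
    · refine ⟨0, 0, le_rfl, ?_, ?_⟩
      · have : (0 : ℝ) ≤ N / d := by positivity
        push_cast
        linarith
      · rw [Ico_self, image_empty]
        rw [filter_eq_empty_iff]
        intro n hn h3
        rw [mem_Icc] at hn
        have h4 := Nat.mod_le n d
        omega

lemma class_sum (N d c : ℕ) (hd : 1 ≤ d) (hdN : d ≤ N) (hc : c < d) (α : ℝ) :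
    ‖∑ n ∈ (Icc 1 N).filter (fun n => n % d = c), ee ((n : ℝ) * α)‖ ≤ KK (2 * N / d) (d * α) := by
  obtain ⟨a, b, hab, hb, heq⟩ := class_eq N d c hd hc
  have hd0 : (0 : ℝ) < d := by exact_mod_cast hd
  rw [heq, sum_image (by
    intro x _ y _ hxy
    have : d * x = d * y := by simpa using hxy
    exact Nat.eq_of_mul_eq_mul_left (by omega) this)]
  have h1 : ∀ m ∈ Ico a b, ee (((c + d * m : ℕ) : ℝ) * α) = ee ((c : ℝ) * α) * ee ((m : ℝ) * (d * α)) := by
    intro m _
    rw [← ee_add]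
    congr 1
    push_cast
    ring
  rw [sum_congr rfl h1, ← mul_sum, norm_mul, norm_ee, one_mul]
  apply geo_bound a b hab
  have h2 : (1 : ℝ) ≤ N / d := by
    rw [le_div_iff₀ hd0, one_mul]
    exact_mod_cast hdN
  have h3 : 2 * (N : ℝ) / d = N / d + N / d := by ring
  rw [h3]
  linarith

lemma class_card (N d c : ℕ) (hd : 1 ≤ d) (hdN : d ≤ N) (hc : c < d) :
    (((Icc 1 N).filter (fun n => n % d = c)).card : ℝ) ≤ 2 * N / d := by
  obtain ⟨a, b, hab, hb, heq⟩ := class_eq N d c hd hc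
  have hd0 : (0 : ℝ) < d := by exact_mod_cast hd
  have h2 : (1 : ℝ) ≤ N / d := by
    rw [le_div_iff₀ hd0, one_mul]
    exact_mod_cast hdN
  have h3 : 2 * (N : ℝ) / d = N / d + N / d := by ring
  rw [heq, h3]
  have h4 : ((Ico a b).image (fun m => c + d * m)).card ≤ b - a := by
    refine card_image_le.trans ?_
    rw [Nat.card_Ico]
  have h5 : (((Ico a b).image (fun m => c + d * m)).card : ℝ) ≤ ((b - a : ℕ) : ℝ) := by exact_mod_cast h4
  rw [Nat.cast_sub hab] at h5
  linarith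

lemma gg_eq (z h n : ℕ) : gg z h n = ((Vz z)⁻¹) ^ 2 * (if ∀ p ∈ pz z, ¬ AA h p n then (1 : ℝ) else 0) := by
  unfold gg lamz AA
  by_cases h1 : ∀ p ∈ pz z, ¬ p ∣ n
  · by_cases h2 : ∀ p ∈ pz z, ¬ p ∣ n + h
    · rw [if_pos h1, if_pos h2, if_pos (fun p hp => not_or.2 ⟨h1 p hp, h2 p hp⟩)]
      ring
    · have h4 : ¬ ∀ p ∈ pz z, ¬ (p ∣ n ∨ p ∣ n + h) :=
        fun h3 => h2 fun p hp => (not_or.1 (h3 p hp)).2
      rw [if_neg h2, mul_zero, if_neg h4, mul_zero]
  · have h4 : ¬ ∀ p ∈ pz z, ¬ (p ∣ n ∨ p ∣ n + h) :=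
      fun h3 => h1 fun p hp => (not_or.1 (h3 p hp)).1
    rw [if_neg h1, zero_mul, if_neg h4, mul_zero]

lemma num_ineq (L : ℝ) (hL : 10000 ≤ L) : 2 / L + 1800 * (2 * L + 1) * (1 + L) / L ^ 4 ≤ 1 := by
  have hL0 : 0 < L := by linarith
  have h4 : 2 / L ≤ 2 / 10000 := div_le_div_of_nonneg_left (by norm_num) (by norm_num) hL
  have h5 : 1800 * (2 * L + 1) * (1 + L) / L ^ 4 ≤ 1 / 2 := by
    rw [div_le_iff₀ (by positivity)]
    have h6 : (10000 : ℝ) * L ^ 2 ≤ L ^ 3 := by nlinarith [sq_nonneg L]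
    have h7 : (10000 : ℝ) * L ^ 3 ≤ L ^ 4 := by nlinarith [pow_pos hL0 3]
    nlinarith [sq_nonneg L]
  linarith

set_option maxHeartbeats 4000000 in
theorem t_MIN : S_MIN := by
  intro E U
  obtain ⟨N0, h0⟩ := choice 2 E (U + 3) 2
  set W : ℕ := (3 * (2 * (1 + E)) + (U + 3) + 1) * 2 with hW
  set B : ℕ := U + W + 6 with hB
  obtain ⟨n1, h1⟩ := ev_log' B 1
  obtain ⟨n2, h2⟩ := ev_L' 10000
  obtain ⟨n3, h3⟩ := Vz_inv_small E
  refine ⟨B, max (max N0 n1) (max n2 (max n3 1)), fun N hN z hz hzE q hq1 hq2 c hcop α hα h => ?_⟩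
  have a0 := h0 N (le_trans (le_trans (le_max_left _ _) (le_max_left _ _)) hN) z hzE
  have a1 := h1 N (le_trans (le_trans (le_max_right _ _) (le_max_left _ _)) hN)
  have hL := h2 N (le_trans (le_trans (le_max_left _ _) (le_max_right _ _)) hN)
  have hV := h3 N (le_trans (le_trans (le_trans (le_max_left _ _) (le_max_right _ _)) (le_max_right _ _)) hN) z hz hzE
  have hN1 : 1 ≤ N := le_trans (le_trans (le_trans (le_max_right _ _) (le_max_right _ _)) (le_max_right _ _)) hN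
  have hNr : (1 : ℝ) ≤ N := by exact_mod_cast hN1
  have hN0 : (0 : ℝ) < N := by linarith
  set L := Real.log N with hLd
  have hL0 : 0 < L := by linarith
  have hL1 : 1 ≤ L := by linarith
  have hLB : 1 ≤ L ^ B := one_le_pow₀ hL1
  have hq0 : (0 : ℝ) < q := by linarith
  have hqn : 1 ≤ q := by exact_mod_cast hq0
  have hqr : (1 : ℝ) ≤ q := by exact_mod_cast hqn
  have hqN : (q : ℝ) ≤ N := hq2.trans (div_le_self hN0.le hLB)
  have hlq : Real.log q ≤ L := Real.log_le_log hq0 hqN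
  have hlq0 : 0 ≤ Real.log q := Real.log_nonneg hqr
  obtain ⟨r, hr1, hr2, hr3⟩ := a0
  have hr3 := hr3 2
  set D := (z + 1) ^ r with hD
  have hD1 : 1 ≤ D := Nat.one_le_pow _ _ (by omega)
  have hDs : (D : ℝ) ≤ √N := by
    rw [← Real.sqrt_sq (by positivity : (0 : ℝ) ≤ (D : ℝ))]
    apply Real.sqrt_le_sqrt
    rw [hD]
    push_cast
    exact hr2
  have hDN' : (D : ℝ) ≤ N := hDs.trans (by
    rw [Real.sqrt_le_left (by positivity)]
    nlinarith)
  have hDN : D ≤ N := by exact_mod_cast hDN'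
  have hV0 : 0 < (Vz z)⁻¹ := inv_pos.2 (Vz_pos z)
  set ind : ℕ → ℝ := fun n => if ∀ p ∈ pz z, ¬ AA h p n then (1 : ℝ) else 0 with hind
  set χ : Finset ℕ → ℕ → ℝ := fun S n => if ∀ p ∈ S, AA h p n then (1 : ℝ) else 0 with hχ
  have hpt : ∀ n : ℕ, |ind n - ∑ j ∈ range r, (-1 : ℝ) ^ j * ∑ S ∈ (pz z).powersetCard j, χ S n| ≤
      ∑ S ∈ (pz z).powersetCard r, χ S n := by
    intro n
    have := bonf_ind (fun p n => AA h p n) (pz z) r n
    rw [hind, hχ]
    convert this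
  have hS : ∑ n ∈ Icc 1 N, ((gg z h n : ℝ) : ℂ) * ee ((n : ℝ) * α) =
      ((((Vz z)⁻¹) ^ 2 : ℝ) : ℂ) * ∑ n ∈ Icc 1 N, ((ind n : ℝ) : ℂ) * ee ((n : ℝ) * α) := by
    rw [mul_sum]
    apply sum_congr rfl
    intro n _
    rw [gg_eq]
    push_cast
    ring
  have hprime : ∀ j, ∀ S ∈ (pz z).powersetCard j, ∀ p ∈ S, p.Prime := fun j S hS p hp =>
    (mem_pz.1 ((mem_powersetCard.1 hS).1 hp)).2
  have hpos : ∀ j, ∀ S ∈ (pz z).powersetCard j, 1 ≤ ∏ p ∈ S, p := fun j S hS =>
    Nat.pos_of_ne_zero (prod_ne_zero_iff.2 fun p hp => (hprime j S hS p hp).ne_zero)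
  have hle : ∀ j ≤ r, ∀ S ∈ (pz z).powersetCard j, ∏ p ∈ S, p ≤ N := fun j hj S hS =>
    (prod_le_pow S z r (mem_powersetCard.1 hS).1 ((mem_powersetCard.1 hS).2.trans_le hj)).trans hDN
  -- the classes
  have hcls : ∀ j, ∀ S ∈ (pz z).powersetCard j, ∀ G : ℕ → ℂ,
      ∑ n ∈ Icc 1 N, ((χ S n : ℝ) : ℂ) * G n =
        ∑ c ∈ CC h S, ∑ n ∈ (Icc 1 N).filter (fun n => n % (∏ p ∈ S, p) = c), G n := by
    intro j S hS G
    have e1 : ∑ n ∈ Icc 1 N, ((χ S n : ℝ) : ℂ) * G n =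
        ∑ n ∈ (Icc 1 N).filter (fun n => n % (∏ p ∈ S, p) ∈ CC h S), G n := by
      rw [sum_filter]
      apply sum_congr rfl
      intro n _
      rw [hχ]
      simp only [mem_CC h S (hprime j S hS) n]
      split_ifs <;> simp
    rw [e1, ← sum_fiberwise_of_maps_to (g := fun n => n % (∏ p ∈ S, p)) (t := CC h S)
      (fun n hn => (mem_filter.1 hn).2)]
    apply sum_congr rfl
    intro c hc
    rw [filter_filter]
    apply sum_congr _ fun _ _ => rfl
    apply filter_congr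
    intro n _
    constructor
    · exact fun h => h.2
    · intro h; rw [h]; exact ⟨hc, rfl⟩
  -- the error
  have herr : ∑ n ∈ Icc 1 N, ∑ S ∈ (pz z).powersetCard r, χ S n ≤ 2 * N * (1 / L ^ (U + 3)) := by
    rw [sum_comm]
    have h4 : ∀ S ∈ (pz z).powersetCard r, ∑ n ∈ Icc 1 N, χ S n ≤ 2 * N * ∏ p ∈ S, (2 / (p : ℝ)) := by
      intro S hS
      have h5 : ∑ n ∈ Icc 1 N, χ S n =
          ∑ c ∈ CC h S, (((Icc 1 N).filter (fun n => n % (∏ p ∈ S, p) = c)).card : ℝ) := by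
        have h6 := hcls r S hS (fun _ => 1)
        have h7 : ((∑ n ∈ Icc 1 N, χ S n : ℝ) : ℂ) = ((∑ c ∈ CC h S,
            (((Icc 1 N).filter (fun n => n % (∏ p ∈ S, p) = c)).card : ℝ) : ℝ) : ℂ) := by
          push_cast
          simp only [mul_one, sum_const, nsmul_eq_mul] at h6
          exact h6
        exact_mod_cast h7
      rw [h5]
      have h6 : ∀ c ∈ CC h S, (((Icc 1 N).filter (fun n => n % (∏ p ∈ S, p) = c)).card : ℝ) ≤
          2 * N / ((∏ p ∈ S, p : ℕ) : ℝ) := fun c hc =>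
        class_card N _ c (hpos r S hS) (hle r le_rfl S hS) (mem_range.1 (mem_filter.1 hc).1)
      refine (sum_le_sum h6).trans ?_
      rw [sum_const, nsmul_eq_mul]
      have h7 : ((CC h S).card : ℝ) ≤ 2 ^ r := by
        have := card_CC h S (hprime r S hS)
        rw [(mem_powersetCard.1 hS).2] at this
        exact_mod_cast this
      have h8 : ∏ p ∈ S, (2 / (p : ℝ)) = 2 ^ r / ((∏ p ∈ S, p : ℕ) : ℝ) := by
        rw [prod_div_distrib, prod_const, (mem_powersetCard.1 hS).2]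
        push_cast
        rfl
      rw [h8]
      have h9 : (0 : ℝ) < ((∏ p ∈ S, p : ℕ) : ℝ) := by exact_mod_cast hpos r S hS
      calc ((CC h S).card : ℝ) * (2 * N / ((∏ p ∈ S, p : ℕ) : ℝ)) ≤
            2 ^ r * (2 * N / ((∏ p ∈ S, p : ℕ) : ℝ)) := by gcongr
        _ = _ := by ring
    refine (sum_le_sum h4).trans ?_
    rw [← mul_sum]
    apply mul_le_mul_of_nonneg_left _ (by positivity)
    have h5 := es_le (x := fun p => 2 / (p : ℝ)) (T := pz z) (fun p _ => by positivity) r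
    unfold es at h5
    refine h5.trans ?_
    refine le_trans ?_ hr1
    apply Real.exp_le_exp.2
    have h6 := sum_pz_le z
    have h7 : ∑ p ∈ pz z, 2 / (p : ℝ) = 2 * ∑ p ∈ pz z, 1 / (p : ℝ) := by
      rw [mul_sum]
      apply sum_congr rfl
      intro p _
      ring
    rw [h7]
    push_cast
    linarith
  -- the main part
  have hmain : ‖∑ n ∈ Icc 1 N, (((∑ j ∈ range r, (-1 : ℝ) ^ j * ∑ S ∈ (pz z).powersetCard j, χ S n : ℝ)) : ℂ) *
      ee ((n : ℝ) * α)‖ ≤ 2 ^ r * ∑ d ∈ Icc 1 D, KK (2 * N / d) (d * α) := by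
    have h4 : ∑ n ∈ Icc 1 N, (((∑ j ∈ range r, (-1 : ℝ) ^ j * ∑ S ∈ (pz z).powersetCard j, χ S n : ℝ)) : ℂ) *
        ee ((n : ℝ) * α) = ∑ j ∈ range r, (-1 : ℂ) ^ j * ∑ S ∈ (pz z).powersetCard j,
          ∑ n ∈ Icc 1 N, ((χ S n : ℝ) : ℂ) * ee ((n : ℝ) * α) := by
      push_cast
      simp only [sum_mul, mul_sum]
      rw [sum_comm]
      apply sum_congr rfl
      intro j _
      rw [sum_comm]
      apply sum_congr rfl
      intro S _
      apply sum_congr rfl
      intro n _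
      ring
    rw [h4]
    refine (norm_sum_le _ _).trans ?_
    have h5 : ∀ j ∈ range r, ‖(-1 : ℂ) ^ j * ∑ S ∈ (pz z).powersetCard j,
          ∑ n ∈ Icc 1 N, ((χ S n : ℝ) : ℂ) * ee ((n : ℝ) * α)‖ ≤
        2 ^ r * ∑ S ∈ (pz z).powersetCard j, KK (2 * N / ((∏ p ∈ S, p : ℕ) : ℝ)) (((∏ p ∈ S, p : ℕ) : ℝ) * α) := by
      intro j hj
      have hjr : j ≤ r := (mem_range.1 hj).le
      rw [norm_mul, norm_pow, norm_neg, norm_one, one_pow, one_mul, mul_sum]
      refine (norm_sum_le _ _).trans (sum_le_sum fun S hS => ?_)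
      rw [hcls j S hS (fun n => ee ((n : ℝ) * α))]
      refine (norm_sum_le _ _).trans ?_
      have h6 : ∀ c ∈ CC h S, ‖∑ n ∈ (Icc 1 N).filter (fun n => n % (∏ p ∈ S, p) = c), ee ((n : ℝ) * α)‖ ≤
          KK (2 * N / ((∏ p ∈ S, p : ℕ) : ℝ)) (((∏ p ∈ S, p : ℕ) : ℝ) * α) := fun c hc =>
        class_sum N _ c (hpos j S hS) (hle j hjr S hS) (mem_range.1 (mem_filter.1 hc).1) α
      refine (sum_le_sum h6).trans ?_
      rw [sum_const, nsmul_eq_mul]
      apply mul_le_mul_of_nonneg_right _ (KK_nonneg (by positivity) _)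
      have h7 := card_CC h S (hprime j S hS)
      rw [(mem_powersetCard.1 hS).2] at h7
      have h8 : (2 : ℕ) ^ j ≤ 2 ^ r := Nat.pow_le_pow_right (by norm_num) hjr
      exact_mod_cast h7.trans h8
    refine (sum_le_sum h5).trans ?_
    rw [← mul_sum]
    apply mul_le_mul_of_nonneg_left _ (by positivity)
    have h6 := sum_small_le z r (fun d => KK (2 * N / (d : ℝ)) ((d : ℝ) * α)) (fun d => KK_nonneg (by positivity) _)
    rw [sum_range_succ] at h6
    have h7 : 0 ≤ ∑ S ∈ (pz z).powersetCard r, KK (2 * N / ((∏ p ∈ S, p : ℕ) : ℝ)) (((∏ p ∈ S, p : ℕ) : ℝ) * α) :=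
      sum_nonneg fun S _ => KK_nonneg (by positivity) _
    linarith
  have htot : ‖∑ n ∈ Icc 1 N, ((ind n : ℝ) : ℂ) * ee ((n : ℝ) * α)‖ ≤
      2 * N * (1 / L ^ (U + 3)) + 2 ^ r * ∑ d ∈ Icc 1 D, KK (2 * N / d) (d * α) := by
    have h4 : ∑ n ∈ Icc 1 N, ((ind n : ℝ) : ℂ) * ee ((n : ℝ) * α) =
        ∑ n ∈ Icc 1 N, ((ind n - ∑ j ∈ range r, (-1 : ℝ) ^ j * ∑ S ∈ (pz z).powersetCard j, χ S n : ℝ) : ℂ) * ee ((n : ℝ) * α) +
        ∑ n ∈ Icc 1 N, (((∑ j ∈ range r, (-1 : ℝ) ^ j * ∑ S ∈ (pz z).powersetCard j, χ S n : ℝ)) : ℂ) * ee ((n : ℝ) * α) := by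
      rw [← sum_add_distrib]
      apply sum_congr rfl
      intro n _
      push_cast
      ring
    rw [h4]
    refine (norm_add_le _ _).trans (add_le_add ?_ hmain)
    refine le_trans ?_ herr
    refine (norm_sum_le _ _).trans (sum_le_sum fun n _ => ?_)
    rw [norm_mul, norm_ee, mul_one, Complex.norm_real, Real.norm_eq_abs]
    exact hpt n
  have htI := typeI_lin hqn hcop hα N D hN1 hD1
  rw [hS, norm_mul, Complex.norm_real, Real.norm_of_nonneg (by positivity)]
  have hlog2 : (Nat.log 2 D : ℝ) ≤ 2 * L := by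
    have h4 : (2 : ℝ) ^ Nat.log 2 D ≤ D := by exact_mod_cast Nat.pow_log_le_self 2 (by omega : D ≠ 0)
    have h6 := Real.log_le_log (by positivity) (h4.trans hDN')
    rw [Real.log_pow] at h6
    have := Real.log_two_gt_d9
    have h7 : (0 : ℝ) ≤ Nat.log 2 D := Nat.cast_nonneg _
    rw [← hLd] at h6
    nlinarith
  have hsN : √(N : ℝ) ≤ N / L ^ B := by
    rw [le_div_iff₀ (by positivity)]
    rw [one_mul] at a1
    calc √(N : ℝ) * L ^ B ≤ √(N : ℝ) * √(N : ℝ) := by gcongr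
      _ = N := Real.mul_self_sqrt hN0.le
  have hNq : (N : ℝ) / q ≤ N / L ^ B := div_le_div_of_nonneg_left hN0.le (by positivity) hq1
  have hP : 0 ≤ (N : ℝ) / L ^ B := by positivity
  have hr3' : (2 : ℝ) ^ r ≤ L ^ W := by
    have := hr3
    push_cast at this
    exact this
  have hV2 : ((Vz z)⁻¹) ^ 2 ≤ L ^ 2 := by gcongr
  calc ((Vz z)⁻¹) ^ 2 * ‖∑ n ∈ Icc 1 N, ((ind n : ℝ) : ℂ) * ee ((n : ℝ) * α)‖
      ≤ L ^ 2 * (2 * N * (1 / L ^ (U + 3)) + L ^ W * (600 * (2 * L + 1) * (3 * (N / L ^ B)) * (1 + L))) := by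
        apply mul_le_mul hV2 _ (norm_nonneg _) (by positivity)
        refine htot.trans (add_le_add le_rfl ?_)
        apply mul_le_mul hr3' (htI.trans ?_) _ (by positivity)
        · gcongr
          linarith [hDs.trans hsN]
        · exact sum_nonneg fun d _ => KK_nonneg (by positivity) _
    _ = (2 / L + 1800 * (2 * L + 1) * (1 + L) / L ^ 4) * (N / L ^ U) := by
        rw [hB]
        field_simp
        ring
    _ ≤ 1 * (N / L ^ U) := by
        exact mul_le_mul_of_nonneg_right (num_ineq L hL) (by positivity)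
    _ = N / L ^ U := one_mul _

end Pool.Agent.E8helper39.TP
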